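import Pool.Agent.GSH.Pen

/-!
# GST: a hermitian pencil with a rational isotropic vector

`K ⊆ Ω` fields of characteristic not two, `Q 0`, `Q 1` two hermitian forms on `K ^ 6` for
`L = K(√d)`, `√d = S` not in `Ω`, all members of the pencil over `Ω` nondegenerate, and
`u` in `K ^ 6` a nonzero common isotropic vector.

`split`: if `w` is an isotropic vector over `Ω` such that the class of `w` modulo `L^*` generates
`Ω` over `K`, then `Ω` is generated over `K` by two elements. (The surface of all isotropic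
vectors modulo `L^*` is rational: a hyperplane section through the line `⟨u, S u⟩` is an
intersection of two quadrics in `ℙ⁴` which contains a line.)
-/

set_option autoImplicit false

noncomputable section

namespace Pool.Agent.GST

open Matrix Pool.Agent.GSH Module

variable {K Ω : Type} [Field K] [Field Ω] [Algebra K Ω]

/-! ### Coordinates -/

theorem sum_single (x : Fin 6 → Ω) : x = ∑ i, x i • vK (Ω := Ω) (Pi.single i (1 : K)) := by
  funext j
  rw [Finset.sum_apply, Finset.sum_eq_single j]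
  · simp [vK]
  · intro i _ hi
    simp [vK, Ne.symm hi]
  · simp

theorem vK_add (x y : Fin 6 → K) : (vK (x + y) : Fin 6 → Ω) = vK x + vK y := by
  funext i
  simp [vK]

theorem vK_smul (a : K) (x : Fin 6 → K) : (vK (a • x) : Fin 6 → Ω) = algebraMap K Ω a • vK x := by
  funext i
  simp [vK]

theorem vK_sum {ι : Type} (s : Finset ι) (x : ι → Fin 6 → K) :
    (vK (∑ i ∈ s, x i) : Fin 6 → Ω) = ∑ i ∈ s, vK (x i) := by
  funext i
  simp [vK]

/-- `u`, `v` can be completed to a basis -/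
theorem exists_coord {u v : Fin 6 → K} (h : LinearIndependent K ![u, v]) :
    ∃ (p q : Fin 6 → K) (r b : Fin 4 → Fin 6 → K), ∀ (Ω : Type) [Field Ω] [Algebra K Ω],
      ∀ x : Fin 6 → Ω, x = (vK p ⬝ᵥ x) • vK u + (vK q ⬝ᵥ x) • vK v +
        ∑ k, (vK (r k) ⬝ᵥ x) • vK (b k) := by
  obtain ⟨C, hC⟩ := Submodule.exists_isCompl (Submodule.span K {u, v})
  have h1 : finrank K (Submodule.span K ({u, v} : Set (Fin 6 → K))) = 2 := by
    have hr : Set.range ![u, v] = {u, v} := by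
      ext x
      simp only [Set.mem_range, Fin.exists_fin_two, Matrix.cons_val_zero, Matrix.cons_val_one,
        Set.mem_insert_iff, Set.mem_singleton_iff]
      exact or_congr eq_comm eq_comm
    have h2 := finrank_span_eq_card h
    rw [hr] at h2
    exact h2
  have h2 : finrank K C = 4 := by
    have h3 := Submodule.finrank_add_eq_of_isCompl hC
    rw [h1, finrank_fin_fun] at h3
    omega
  let bC : Basis (Fin 4) K C := finBasisOfFinrankEq K C h2
  have h3 : ∀ i : Fin 6, ∃ (p q : K) (r : Fin 4 → K), (Pi.single i (1 : K) : Fin 6 → K) =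
      p • u + q • v + ∑ k, r k • (bC k : Fin 6 → K) := by
    intro i
    have h4 : (Pi.single i (1 : K) : Fin 6 → K) ∈ Submodule.span K {u, v} ⊔ C := by
      rw [hC.sup_eq_top]
      trivial
    obtain ⟨y, hy, z, hz, h5⟩ := Submodule.mem_sup.1 h4
    obtain ⟨p, q, h6⟩ := Submodule.mem_span_pair.1 hy
    refine ⟨p, q, fun k => bC.repr ⟨z, hz⟩ k, ?_⟩
    have h7 : ∑ k, (bC.repr ⟨z, hz⟩) k • (bC k : Fin 6 → K) = z := by
      have h8 : ((∑ k, (bC.repr ⟨z, hz⟩) k • bC k : C) : Fin 6 → K) = z :=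
        congrArg Subtype.val (bC.sum_repr ⟨z, hz⟩)
      rw [Submodule.coe_sum] at h8
      exact h8
    rw [← h5, h6]
    exact congrArg (y + ·) h7.symm
  choose p q r h4 using h3
  refine ⟨p, q, fun k i => r i k, fun k => (bC k : Fin 6 → K), fun Ω _ _ x => ?_⟩
  conv_lhs => rw [sum_single (K := K) x]
  have h5 : ∀ i, x i • vK (Ω := Ω) (Pi.single i (1 : K)) =
      (x i * algebraMap K Ω (p i)) • vK u + (x i * algebraMap K Ω (q i)) • vK v +
        ∑ k, (x i * algebraMap K Ω (r i k)) • vK (bC k : Fin 6 → K) := by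
    intro i
    rw [h4 i, vK_add, vK_add, vK_smul, vK_smul, vK_sum, smul_add, smul_add, smul_smul, smul_smul,
      Finset.smul_sum]
    congr 1
    refine Finset.sum_congr rfl fun k _ => ?_
    rw [vK_smul, smul_smul]
  rw [Finset.sum_congr rfl fun i _ => h5 i, Finset.sum_add_distrib, Finset.sum_add_distrib,
    Finset.sum_comm, ← Finset.sum_smul, ← Finset.sum_smul]
  congr 1
  · congr 1
    · congr 1
      exact Finset.sum_congr rfl fun i _ => mul_comm _ _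
    · congr 1
      exact Finset.sum_congr rfl fun i _ => mul_comm _ _
  · refine Finset.sum_congr rfl fun k _ => ?_
    rw [← Finset.sum_smul]
    congr 1
    exact Finset.sum_congr rfl fun i _ => mul_comm _ _

/-! ### No isotropic space of dimension four -/

theorem no_iso {B : LinearMap.BilinForm Ω (Fin 6 → Ω)} (hB : LinearMap.ker B = ⊥)
    {f : Fin 4 → Fin 6 → Ω} (hf : LinearIndependent Ω f) (h : ∀ i j, B (f i) (f j) = 0) :
    False := by
  set W := Submodule.span Ω (Set.range f) with hW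
  have h1 : W ≤ B.orthogonal W := by
    intro x hx
    rw [LinearMap.BilinForm.mem_orthogonal_iff]
    intro y hy
    have h2 : ∀ j, ∀ y ∈ W, B y (f j) = 0 := by
      intro j y hy
      refine Submodule.span_induction (p := fun y _ => B y (f j) = 0) ?_ ?_ ?_ ?_ hy
      · rintro _ ⟨i, rfl⟩
        exact h i j
      · simp
      · intro a b _ _ ha hb
        rw [map_add, LinearMap.add_apply, ha, hb, add_zero]
      · intro c a _ ha
        rw [map_smul, LinearMap.smul_apply, ha, smul_zero]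
    refine Submodule.span_induction (p := fun x _ => B y x = 0) ?_ ?_ ?_ ?_ hx
    · rintro _ ⟨j, rfl⟩
      exact h2 j y hy
    · simp
    · intro a b _ _ ha hb
      rw [map_add, ha, hb, add_zero]
    · intro c a _ ha
      rw [map_smul, ha, smul_zero]
  have h2 : finrank Ω W = 4 := by
    rw [hW, finrank_span_eq_card hf]
    rfl
  have h3 := LinearMap.BilinForm.finrank_add_finrank_orthogonal' (B := B) W
  rw [hB, inf_bot_eq, finrank_bot, finrank_fin_fun] at h3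
  have h4 := Submodule.finrank_mono h1
  omega

theorem sm_smul (S : Matrix (Fin 6) (Fin 6) K) (c α β : Ω) (x : Fin 6 → Ω) :
    sm S α β (c • x) = sm S (c * α) (c * β) x := by
  unfold sm
  rw [mulVec_smul, smul_smul, smul_smul, mul_comm α, mul_comm β]

/-! ### The determinant -/

section Det

variable {Q : Fin 2 → Matrix (Fin 6) (Fin 6) K} {S : Matrix (Fin 6) (Fin 6) K} {d : K}

theorem bl_comm {M : Matrix (Fin 6) (Fin 6) K} (hM : Mᵀ = M) (u v : Fin 6 → Ω) :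
    bl M u v = bl M v u := by
  unfold bl
  have h1 : (mK M : Matrix (Fin 6) (Fin 6) Ω)ᵀ = mK M := by
    unfold mK
    rw [← Matrix.transpose_map, hM]
  rw [dotProduct_mulVec, ← mulVec_transpose, h1, dotProduct_comm]

theorem bl_S {M : Matrix (Fin 6) (Fin 6) K} (hS : Sᵀ * M + M * S = 0) (u v : Fin 6 → Ω) :
    bl M (mK S *ᵥ u) v = -bl M u (mK S *ᵥ v) := by
  rw [bl_left, bl_right]
  have h1 : Sᵀ * M = (-1 : K) • (M * S) := by
    rw [neg_one_smul]
    exact eq_neg_of_add_eq_zero_left hS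
  rw [h1, bl_smul_mat, map_neg, map_one, neg_one_mul]

theorem bl_self {M : Matrix (Fin 6) (Fin 6) K} (h2 : (2 : Ω) ≠ 0) (hM : Mᵀ = M)
    (hS : Sᵀ * M + M * S = 0) (u : Fin 6 → Ω) : bl M u (mK S *ᵥ u) = 0 := by
  have h3 := bl_S hS u u
  rw [bl_comm hM] at h3
  apply mul_left_cancel₀ h2
  linear_combination h3

theorem bl_SS {M : Matrix (Fin 6) (Fin 6) K} (hS2 : S * S = d • 1)
    (hS : Sᵀ * M + M * S = 0) (u v : Fin 6 → Ω) :
    bl M (mK S *ᵥ u) (mK S *ᵥ v) = -(algebraMap K Ω d * bl M u v) := by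
  rw [bl_S hS, mK_sq hS2, bl_smul_right]

/-- `e`, `S e`, `w`, `S w` are independent -/
theorem lin_indep (hS2 : S * S = d • 1) (hd : NSq Ω d) {e w : Fin 6 → Ω} (he : e ≠ 0)
    (hw : ∀ α β, w ≠ sm S α β e) :
    LinearIndependent Ω ![e, mK S *ᵥ e, w, mK S *ᵥ w] := by
  rw [Fintype.linearIndependent_iff]
  intro c hc
  have h0 : sm S (c 0) (c 1) e + sm S (c 2) (c 3) w = 0 := by
    rw [← hc, Fin.sum_univ_four]
    unfold sm
    simp only [Matrix.cons_val_zero, Matrix.cons_val_one, Matrix.cons_val]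
    abel
  have hz : ∀ α β : Ω, sm S α β e = 0 → α = 0 ∧ β = 0 := by
    intro α β h
    by_contra hcon
    have h1 : α ≠ 0 ∨ β ≠ 0 := by tauto
    have h2 := sm_sm hS2 α (-β) α β e
    rw [h] at h2
    have h3 : sm S α (-β) (0 : Fin 6 → Ω) = 0 := by
      unfold sm
      rw [mulVec_zero, smul_zero, smul_zero, add_zero]
    rw [h3] at h2
    have h4 : sm S (α * α + algebraMap K Ω d * (-β * β)) (α * β + -β * α) e =
        (α ^ 2 - algebraMap K Ω d * β ^ 2) • e := by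
      unfold sm
      rw [show α * β + -β * α = 0 by ring, zero_smul, add_zero]
      congr 1
      ring
    rw [h4] at h2
    rcases smul_eq_zero.1 h2.symm with h5 | h5
    · exact hd.norm h1 h5
    · exact he h5
  have h23 : c 2 = 0 ∧ c 3 = 0 := by
    by_contra hcon
    have h1 : c 2 ≠ 0 ∨ c 3 ≠ 0 := by tauto
    have hn := hd.norm h1
    set N := c 2 ^ 2 - algebraMap K Ω d * c 3 ^ 2 with hN
    have h2 : sm S (c 2) (c 3) w = sm S (-c 0) (-c 1) e := by
      have h3 : sm S (-c 0) (-c 1) e = -sm S (c 0) (c 1) e := by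
        unfold sm
        rw [neg_smul, neg_smul, neg_add]
      rw [h3]
      exact eq_neg_of_add_eq_zero_right h0
    have h3 := congrArg (sm S (c 2) (-c 3)) h2
    rw [sm_sm hS2, sm_sm hS2] at h3
    have h4 : sm S (c 2 * c 2 + algebraMap K Ω d * (-c 3 * c 3)) (c 2 * c 3 + -c 3 * c 2) w =
        N • w := by
      unfold sm
      rw [show c 2 * c 3 + -c 3 * c 2 = 0 by ring, zero_smul, add_zero]
      congr 1
      rw [hN]
      ring
    rw [h4] at h3
    apply hw (N⁻¹ * (c 2 * -c 0 + algebraMap K Ω d * (-c 3 * -c 1)))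
      (N⁻¹ * (c 2 * -c 1 + -c 3 * -c 0))
    rw [sm_scale, ← h3, smul_smul, inv_mul_cancel₀ hn, one_smul]
  obtain ⟨h2, h3⟩ := h23
  have h4 : sm S (c 2) (c 3) w = 0 := by
    unfold sm
    rw [h2, h3, zero_smul, zero_smul, add_zero]
  rw [h4, add_zero] at h0
  obtain ⟨h5, h6⟩ := hz _ _ h0
  intro i
  fin_cases i
  · exact h5
  · exact h6
  · exact h2
  · exact h3

/-- the members of the pencil over `Ω` are nondegenerate -/
def NonDeg (Q : Fin 2 → Matrix (Fin 6) (Fin 6) K) (Ω : Type) [Field Ω] [Algebra K Ω] : Prop :=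
  ∀ a b : Ω, a ≠ 0 ∨ b ≠ 0 → ∀ x : Fin 6 → Ω, (∀ y, a * bl (Q 0) x y + b * bl (Q 1) x y = 0) →
    x = 0

theorem det_ne (h2 : (2 : Ω) ≠ 0) (hS2 : S * S = d • 1) (hsym : ∀ j, (Q j)ᵀ = Q j)
    (hher : ∀ j, Sᵀ * Q j + Q j * S = 0) (hd : NSq Ω d) (hnd : NonDeg Q Ω) {e w : Fin 6 → Ω}
    (he : e ≠ 0) (hw : ∀ α β, w ≠ sm S α β e) (he0 : ∀ j, bl (Q j) e e = 0)
    (hw0 : ∀ j, bl (Q j) w w = 0) :
    bl (Q 0) w e * bl (Q 1) w (mK S *ᵥ e) - bl (Q 0) w (mK S *ᵥ e) * bl (Q 1) w e ≠ 0 := by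
  intro hD
  obtain ⟨a, b, hab, h3, h4⟩ : ∃ a b : Ω, (a ≠ 0 ∨ b ≠ 0) ∧
      a * bl (Q 0) w e + b * bl (Q 1) w e = 0 ∧
      a * bl (Q 0) w (mK S *ᵥ e) + b * bl (Q 1) w (mK S *ᵥ e) = 0 := by
    by_cases h1 : bl (Q 0) w e = 0 ∧ bl (Q 1) w e = 0
    · by_cases h5 : bl (Q 0) w (mK S *ᵥ e) = 0
      · exact ⟨1, 0, Or.inl one_ne_zero, by rw [h1.1]; ring, by rw [h5]; ring⟩
      · refine ⟨bl (Q 1) w (mK S *ᵥ e), -bl (Q 0) w (mK S *ᵥ e), Or.inr (neg_ne_zero.2 h5), ?_, ?_⟩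
        · rw [h1.1, h1.2]
          ring
        · ring
    · refine ⟨bl (Q 1) w e, -bl (Q 0) w e, ?_, by ring, ?_⟩
      · rw [neg_ne_zero]
        tauto
      · linear_combination -hD
  let B : LinearMap.BilinForm Ω (Fin 6 → Ω) :=
    LinearMap.mk₂ Ω (fun x y => a * bl (Q 0) x y + b * bl (Q 1) x y)
      (fun x x' y => by rw [bl_add_left, bl_add_left]; ring)
      (fun c x y => by rw [bl_smul_left, bl_smul_left, smul_eq_mul]; ring)
      (fun x y y' => by rw [bl_add_right, bl_add_right]; ring)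
      (fun c x y => by rw [bl_smul_right, bl_smul_right, smul_eq_mul]; ring)
  have hBa : ∀ x y, B x y = a * bl (Q 0) x y + b * bl (Q 1) x y := fun x y => rfl
  have hker : LinearMap.ker B = ⊥ := by
    rw [LinearMap.ker_eq_bot']
    intro x hx
    exact hnd a b hab x fun y => by rw [← hBa, hx, LinearMap.zero_apply]
  have hBc : ∀ x y, B x y = B y x := by
    intro x y
    rw [hBa, hBa, bl_comm (hsym 0), bl_comm (hsym 1)]
  have hBS : ∀ x y, B (mK S *ᵥ x) y = -B x (mK S *ᵥ y) := by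
    intro x y
    rw [hBa, hBa, bl_S (hher 0), bl_S (hher 1)]
    ring
  have hBSS : ∀ x y, B (mK S *ᵥ x) (mK S *ᵥ y) = -(algebraMap K Ω d * B x y) := by
    intro x y
    rw [hBa, hBa, bl_SS hS2 (hher 0), bl_SS hS2 (hher 1)]
    ring
  have hBx : ∀ x, B x (mK S *ᵥ x) = 0 := by
    intro x
    rw [hBa, bl_self h2 (hsym 0) (hher 0), bl_self h2 (hsym 1) (hher 1)]
    ring
  have hee : B e e = 0 := by rw [hBa, he0, he0]; ring
  have hww : B w w = 0 := by rw [hBa, hw0, hw0]; ring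
  have hwe : B w e = 0 := h3
  have hwSe : B w (mK S *ᵥ e) = 0 := h4
  have heSw : B e (mK S *ᵥ w) = 0 := by
    rw [hBc, hBS, hwSe, neg_zero]
  refine no_iso hker (lin_indep hS2 hd he hw) ?_
  intro i j
  fin_cases i <;> fin_cases j <;>
    simp only [Fin.zero_eta, Fin.mk_one, Fin.reduceFinMk, Matrix.cons_val_zero,
      Matrix.cons_val_one, Matrix.cons_val]
  · exact hee
  · exact hBx e
  · rw [hBc]; exact hwe
  · exact heSw
  · rw [hBc]; exact hBx e
  · rw [hBSS, hee, mul_zero, neg_zero]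
  · rw [hBc]; exact hwSe
  · rw [hBSS, hBc, hwe, mul_zero, neg_zero]
  · exact hwe
  · exact hwSe
  · exact hww
  · exact hBx w
  · rw [hBc]; exact heSw
  · rw [hBSS, hwe, mul_zero, neg_zero]
  · rw [hBc]; exact hBx w
  · rw [hBSS, hww, mul_zero, neg_zero]

/-- **A hermitian pencil with an isotropic vector over `K`.** -/
theorem split (h2 : (2 : Ω) ≠ 0) (hS2 : S * S = d • 1) (hsym : ∀ j, (Q j)ᵀ = Q j)
    (hher : ∀ j, Sᵀ * Q j + Q j * S = 0) (hd : NSq Ω d) (hnd : NonDeg Q Ω) {u : Fin 6 → K}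
    (hu : u ≠ 0) (hu0 : ∀ j, bl (Q j) (vK (Ω := Ω) u) (vK u) = 0) {w : Fin 6 → Ω}
    (hw0 : ∀ j, bl (Q j) w w = 0)
    (hgen : ∀ (T : IntermediateField K Ω) (v : Fin 6 → Ω) (α β : Ω), (∀ i, v i ∈ T) →
      w = sm S α β v → T = ⊤) :
    ∃ t₁ t₂ : Ω, IntermediateField.adjoin K {t₁, t₂} = ⊤ := by
  set e : Fin 6 → Ω := vK u with he
  have he0 : e ≠ 0 := by
    intro h
    apply hu
    funext i
    exact (map_eq_zero (algebraMap K Ω)).1 (congrFun h i)
  by_cases hwe : ∃ α β, w = sm S α β e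
  · obtain ⟨α, β, h3⟩ := hwe
    refine ⟨0, 0, ?_⟩
    exact hgen _ e α β (fun i => IntermediateField.algebraMap_mem _ _) h3
  push Not at hwe
  have hli : LinearIndependent K ![u, S *ᵥ u] := by
    rw [LinearIndependent.pair_iff]
    intro s t hst
    have h3 : sm S (algebraMap K Ω s) (algebraMap K Ω t) e = 0 := by
      unfold sm
      rw [he, mK_vK, ← vK_smul, ← vK_smul, ← vK_add, hst]
      funext i
      exact map_zero _
    by_contra hcon
    have h4 : algebraMap K Ω s ≠ 0 ∨ algebraMap K Ω t ≠ 0 := by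
      rw [map_ne_zero, map_ne_zero]
      tauto
    have h5 := sm_sm hS2 (algebraMap K Ω s) (-algebraMap K Ω t) (algebraMap K Ω s)
      (algebraMap K Ω t) e
    rw [h3] at h5
    have h6 : sm S (algebraMap K Ω s) (-algebraMap K Ω t) (0 : Fin 6 → Ω) = 0 := by
      unfold sm
      rw [mulVec_zero, smul_zero, smul_zero, add_zero]
    rw [h6] at h5
    have h7 : sm S (algebraMap K Ω s * algebraMap K Ω s + algebraMap K Ω d *
        (-algebraMap K Ω t * algebraMap K Ω t)) (algebraMap K Ω s * algebraMap K Ω t +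
        -algebraMap K Ω t * algebraMap K Ω s) e =
        ((algebraMap K Ω s) ^ 2 - algebraMap K Ω d * (algebraMap K Ω t) ^ 2) • e := by
      unfold sm
      rw [show algebraMap K Ω s * algebraMap K Ω t + -algebraMap K Ω t * algebraMap K Ω s = 0 by
        ring, zero_smul, add_zero]
      congr 1
      ring
    rw [h7] at h5
    rcases smul_eq_zero.1 h5.symm with h8 | h8
    · exact hd.norm h4 h8
    · exact he0 h8
  obtain ⟨p, q, r, b, hco⟩ := exists_coord hli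
  -- normalise `w`
  obtain ⟨α₀, β₀, hab, h3⟩ : ∃ α₀ β₀ : Ω, (α₀ ≠ 0 ∨ β₀ ≠ 0) ∧
      vK (r 3) ⬝ᵥ sm S α₀ β₀ w = 0 := by
    by_cases h4 : vK (r 3) ⬝ᵥ w = 0
    · refine ⟨1, 0, Or.inl one_ne_zero, ?_⟩
      rw [dot_sm, h4]
      ring
    · refine ⟨vK (r 3) ⬝ᵥ (mK S *ᵥ w), -(vK (r 3) ⬝ᵥ w), Or.inr (neg_ne_zero.2 h4), ?_⟩
      rw [dot_sm]
      ring
  set w₁ := sm S α₀ β₀ w with hw₁
  have hN := hd.norm hab
  set N := α₀ ^ 2 - algebraMap K Ω d * β₀ ^ 2 with hNd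
  have hback : w = sm S (N⁻¹ * α₀) (N⁻¹ * -β₀) w₁ := by
    rw [sm_scale, hw₁, sm_sm hS2]
    have h4 : sm S (α₀ * α₀ + algebraMap K Ω d * (-β₀ * β₀)) (α₀ * β₀ + -β₀ * α₀) w = N • w := by
      unfold sm
      rw [show α₀ * β₀ + -β₀ * α₀ = 0 by ring, zero_smul, add_zero]
      congr 1
      rw [hNd]
      ring
    rw [h4, smul_smul, inv_mul_cancel₀ hN, one_smul]
  have hw₁0 : ∀ j, bl (Q j) w₁ w₁ = 0 := by
    intro j
    rw [hw₁, bl_sm, hher, hw0, bl_zero_mat]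
    have h4 : bl (Sᵀ * Q j * S) w w = bl (Q j) (mK S *ᵥ w) (mK S *ᵥ w) := by
      rw [bl_left, bl_right]
    rw [h4, bl_SS hS2 (hher j), hw0]
    ring
  have hw₁e : ∀ α β, w₁ ≠ sm S α β e := by
    intro α β h4
    apply hwe (N⁻¹ * α₀ * α + algebraMap K Ω d * (N⁻¹ * -β₀ * β))
      (N⁻¹ * α₀ * β + N⁻¹ * -β₀ * α)
    rw [hback, h4, sm_sm hS2]
  -- one of the coordinates is not zero
  obtain ⟨k₀, hk₀⟩ : ∃ k₀ : Fin 3, vK (r k₀.castSucc) ⬝ᵥ w₁ ≠ 0 := by
    by_contra hcon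
    push Not at hcon
    apply hw₁e (vK p ⬝ᵥ w₁) (vK q ⬝ᵥ w₁)
    conv_lhs => rw [hco Ω w₁]
    unfold sm
    have h4 : ∑ k, (vK (r k) ⬝ᵥ w₁) • vK (Ω := Ω) (b k) = 0 := by
      rw [Fin.sum_univ_castSucc, Finset.sum_eq_zero fun k _ => by rw [hcon k, zero_smul],
        zero_add]
      have h5 : (Fin.last 3 : Fin 4) = 3 := rfl
      rw [h5, h3, zero_smul]
    rw [h4, add_zero, he, mK_vK]
  set c := vK (r k₀.castSucc) ⬝ᵥ w₁ with hc
  set w₂ := c⁻¹ • w₁ with hw₂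
  obtain ⟨t₁, t₂, ht⟩ : ∃ t₁ t₂ : Ω, ∀ k : Fin 4, vK (r k) ⬝ᵥ w₂ = 0 ∨ vK (r k) ⬝ᵥ w₂ = 1 ∨
      vK (r k) ⬝ᵥ w₂ = t₁ ∨ vK (r k) ⬝ᵥ w₂ = t₂ := by
    have h4 : vK (r k₀.castSucc) ⬝ᵥ w₂ = 1 := by
      rw [hw₂, dotProduct_smul, ← hc, smul_eq_mul, inv_mul_cancel₀ hk₀]
    have h5 : vK (r 3) ⬝ᵥ w₂ = 0 := by
      rw [hw₂, dotProduct_smul, h3, smul_zero]
    fin_cases k₀
    · refine ⟨vK (r 1) ⬝ᵥ w₂, vK (r 2) ⬝ᵥ w₂, fun k => ?_⟩
      fin_cases k
      · exact Or.inr (Or.inl h4)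
      · exact Or.inr (Or.inr (Or.inl rfl))
      · exact Or.inr (Or.inr (Or.inr rfl))
      · exact Or.inl h5
    · refine ⟨vK (r 0) ⬝ᵥ w₂, vK (r 2) ⬝ᵥ w₂, fun k => ?_⟩
      fin_cases k
      · exact Or.inr (Or.inr (Or.inl rfl))
      · exact Or.inr (Or.inl h4)
      · exact Or.inr (Or.inr (Or.inr rfl))
      · exact Or.inl h5
    · refine ⟨vK (r 0) ⬝ᵥ w₂, vK (r 1) ⬝ᵥ w₂, fun k => ?_⟩
      fin_cases k
      · exact Or.inr (Or.inr (Or.inl rfl))
      · exact Or.inr (Or.inr (Or.inr rfl))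
      · exact Or.inr (Or.inl h4)
      · exact Or.inl h5
  refine ⟨t₁, t₂, ?_⟩
  set T := IntermediateField.adjoin K {t₁, t₂} with hT
  have ht₁ : t₁ ∈ T := IntermediateField.subset_adjoin K _ (by simp)
  have ht₂ : t₂ ∈ T := IntermediateField.subset_adjoin K _ (by simp)
  have hrT : ∀ k, vK (r k) ⬝ᵥ w₂ ∈ T := by
    intro k
    rcases ht k with h | h | h | h
    · rw [h]; exact zero_mem _
    · rw [h]; exact one_mem _
    · rw [h]; exact ht₁
    · rw [h]; exact ht₂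
  set w₀ : Fin 6 → Ω := ∑ k, (vK (r k) ⬝ᵥ w₂) • vK (b k) with hw₀
  have hw₀T : ∀ i, w₀ i ∈ T := by
    intro i
    rw [hw₀, Finset.sum_apply]
    exact sum_mem fun k _ => mul_mem (hrT k) (IntermediateField.algebraMap_mem _ _)
  have heT : ∀ i, e i ∈ T := fun i => IntermediateField.algebraMap_mem _ _
  set f := mK S *ᵥ e with hf
  have hfT : ∀ i, f i ∈ T := mK_mem S heT
  set α := vK p ⬝ᵥ w₂ with hα
  set β := vK q ⬝ᵥ w₂ with hβ
  have hdec : w₂ = α • e + β • f + w₀ := by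
    conv_lhs => rw [hco Ω w₂]
    rw [hf, he, mK_vK]
  have hQe : ∀ j, bl (Q j) e e = 0 := hu0
  have hQf : ∀ j, bl (Q j) f f = 0 := by
    intro j
    rw [hf, bl_SS hS2 (hher j), hQe, mul_zero, neg_zero]
  have hQef : ∀ j, bl (Q j) e f = 0 := fun j => bl_self h2 (hsym j) (hher j) e
  have hQfe : ∀ j, bl (Q j) f e = 0 := fun j => by rw [bl_comm (hsym j), hQef]
  have hw₂0 : ∀ j, bl (Q j) w₂ w₂ = 0 := by
    intro j
    rw [hw₂, bl_smul_left, bl_smul_right, hw₁0, mul_zero, mul_zero]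
  have hw₂e : ∀ α β, w₂ ≠ sm S α β e := by
    intro α β h4
    apply hw₁e (c * α) (c * β)
    rw [sm_scale, ← h4, hw₂, smul_smul, mul_inv_cancel₀ hk₀, one_smul]
  have hD := det_ne h2 hS2 hsym hher hd hnd he0 hw₂e hQe hw₂0
  rw [← hf] at hD
  have h0e : ∀ j, bl (Q j) w₂ e = bl (Q j) w₀ e := by
    intro j
    rw [hdec, bl_add_left, bl_add_left, bl_smul_left, bl_smul_left, hQe, hQfe]
    ring
  have h0f : ∀ j, bl (Q j) w₂ f = bl (Q j) w₀ f := by
    intro j
    rw [hdec, bl_add_left, bl_add_left, bl_smul_left, bl_smul_left, hQef, hQf]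
    ring
  have heq : ∀ j, bl (Q j) w₀ w₀ + 2 * α * bl (Q j) w₀ e + 2 * β * bl (Q j) w₀ f = 0 := by
    intro j
    have h4 := hw₂0 j
    rw [hdec] at h4
    simp only [bl_add_left, bl_add_right, bl_smul_left, bl_smul_right] at h4
    rw [hQe, hQf, hQef, hQfe, bl_comm (hsym j) e w₀, bl_comm (hsym j) f w₀] at h4
    linear_combination h4
  rw [h0e, h0e, h0f, h0f] at hD
  set D := bl (Q 0) w₀ e * bl (Q 1) w₀ f - bl (Q 0) w₀ f * bl (Q 1) w₀ e with hDd
  have hblT : ∀ j (x y : Fin 6 → Ω), (∀ i, x i ∈ T) → (∀ i, y i ∈ T) → bl (Q j) x y ∈ T :=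
    fun j x y hx hy => bl_mem _ hx hy
  have hDT : D ∈ T := sub_mem (mul_mem (hblT 0 _ _ hw₀T heT) (hblT 1 _ _ hw₀T hfT))
    (mul_mem (hblT 0 _ _ hw₀T hfT) (hblT 1 _ _ hw₀T heT))
  have h2T : (2 : Ω) ∈ T := by
    have h4 := IntermediateField.algebraMap_mem T (2 : K)
    rwa [map_ofNat] at h4
  have hαT : α ∈ T := by
    have h4 : α = (bl (Q 0) w₀ f * bl (Q 1) w₀ w₀ - bl (Q 1) w₀ f * bl (Q 0) w₀ w₀) /
        (2 * D) := by
      rw [eq_div_iff (mul_ne_zero h2 hD), hDd]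
      linear_combination bl (Q 1) w₀ f * heq 0 - bl (Q 0) w₀ f * heq 1
    rw [h4]
    exact div_mem (sub_mem (mul_mem (hblT 0 _ _ hw₀T hfT) (hblT 1 _ _ hw₀T hw₀T))
      (mul_mem (hblT 1 _ _ hw₀T hfT) (hblT 0 _ _ hw₀T hw₀T))) (mul_mem h2T hDT)
  have hβT : β ∈ T := by
    have h4 : β = (bl (Q 1) w₀ e * bl (Q 0) w₀ w₀ - bl (Q 0) w₀ e * bl (Q 1) w₀ w₀) /
        (2 * D) := by
      rw [eq_div_iff (mul_ne_zero h2 hD), hDd]
      linear_combination bl (Q 0) w₀ e * heq 1 - bl (Q 1) w₀ e * heq 0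
    rw [h4]
    exact div_mem (sub_mem (mul_mem (hblT 1 _ _ hw₀T heT) (hblT 0 _ _ hw₀T hw₀T))
      (mul_mem (hblT 0 _ _ hw₀T heT) (hblT 1 _ _ hw₀T hw₀T))) (mul_mem h2T hDT)
  have hw₂T : ∀ i, w₂ i ∈ T := by
    intro i
    rw [hdec]
    exact add_mem (add_mem (mul_mem hαT (heT i)) (mul_mem hβT (hfT i))) (hw₀T i)
  refine hgen T w₂ (c * (N⁻¹ * α₀)) (c * (N⁻¹ * -β₀)) hw₂T ?_
  have h4 : w₁ = c • w₂ := by
    rw [hw₂, smul_smul, mul_inv_cancel₀ hk₀, one_smul]
  rw [← sm_smul, ← h4]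
  exact hback

end Det

end Pool.Agent.GST
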